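import Pool.Agent.Helper97.Nag.Goals

set_option autoImplicit false

noncomputable section

namespace Pool.Agent.Helper1.Nag.CRV3

open Pool.Agent.Helper97 Pool.Agent.Helper97.Nag
open Pool.Agent.Helper97.Tate (OO KK SS cf IsTh qe Th iO ser evx evK th Van Fm tst nP Idx Indep IsCub cub)

theorem cub_hom {A : Type} [CommRing A] (α β γ : A) : (cub α β γ).IsHomogeneous 3 := by
  unfold cub
  have hX : ∀ i : Fin 3, (MvPolynomial.X i : MvPolynomial (Fin 3) A).IsHomogeneous 1 :=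
    fun i => MvPolynomial.isHomogeneous_X A i
  have hC : ∀ c : A, (MvPolynomial.C c : MvPolynomial (Fin 3) A).IsHomogeneous 0 :=
    fun c => MvPolynomial.isHomogeneous_C (Fin 3) c
  have h1 : (MvPolynomial.X 0 * MvPolynomial.X 1 * MvPolynomial.X 2 :
      MvPolynomial (Fin 3) A).IsHomogeneous 3 := ((hX 0).mul (hX 1)).mul (hX 2)
  have h2 : ∀ (c : A) (i : Fin 3), (MvPolynomial.C c * MvPolynomial.X i ^ 3 :
      MvPolynomial (Fin 3) A).IsHomogeneous 3 := by
    intro c i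
    have := (hC c).mul ((hX i).pow 3)
    simpa using this
  exact ((h1.sub (h2 α 0)).sub (h2 β 1)).sub (h2 γ 2)

theorem t (h1 : Tate.S_CUB) : S_CRV3 := by
  intro F _ _
  obtain ⟨α, β, γ, hα, hβ, hγ, he⟩ := h1 F
  refine ⟨cub α β γ, cub_hom α β γ, ?_, ?_⟩
  · have e1 : PowerSeries.constantCoeff α = 0 := PowerSeries.X_dvd_iff.1 hα
    have e2 : PowerSeries.constantCoeff β = 1 := by
      have := PowerSeries.X_dvd_iff.1 hβ
      rw [map_sub, map_one] at this
      exact sub_eq_zero.1 this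
    have e3 : PowerSeries.constantCoeff γ = 1 := by
      have := PowerSeries.X_dvd_iff.1 hγ
      rw [map_sub, map_one] at this
      exact sub_eq_zero.1 this
    simp only [cub, g0, map_sub, map_mul, map_pow, MvPolynomial.map_X, MvPolynomial.map_C, e1, e2,
      e3, map_zero, map_one, zero_mul, one_mul, sub_zero]
    norm_num
  · simp only [cub, MvPolynomial.eval₂_sub, MvPolynomial.eval₂_mul, MvPolynomial.eval₂_pow,
      MvPolynomial.eval₂_X, MvPolynomial.eval₂_C]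
    have : Th 3 ((((0 : Fin 3) : ℕ) : ℕ) : ℤ) (1 : F) * Th 3 ((((1 : Fin 3) : ℕ) : ℕ) : ℤ) 1 *
        Th 3 ((((2 : Fin 3) : ℕ) : ℕ) : ℤ) 1 = iO α * Th 3 ((((0 : Fin 3) : ℕ) : ℕ) : ℤ) 1 ^ 3 +
          iO β * Th 3 ((((1 : Fin 3) : ℕ) : ℕ) : ℤ) 1 ^ 3 +
          iO γ * Th 3 ((((2 : Fin 3) : ℕ) : ℕ) : ℤ) 1 ^ 3 := he
    rw [this]
    ring

end Pool.Agent.Helper1.Nag.CRV3
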