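import Pool.Agent.Helper97.Nag.Goals

set_option autoImplicit false

noncomputable section

namespace Pool.Agent.Helper1.Nag.COLS

open Pool.Agent.Helper97 Pool.Agent.Helper97.Nag
open Pool.Agent.Helper97.Tate (Indep)

theorem mem_lns (S : Finset (ℤ × ℤ)) (s : ℕ) (X : ℤ) :
    X ∈ lns S s ↔ X ∈ S.image (fun q => q.1 - q.2) ∧
      s ≤ (S.filter fun q => q.1 - q.2 = X).card := by
  unfold lns
  rw [Finset.mem_filter]

theorem step (M : ℕ) (S : Finset (ℤ × ℤ))
    (h : ∀ s : ℕ, 1 ≤ s → s ≤ M → M + 1 ≤ (lns S s).card + s) :
    ∀ n : ℕ, n ≤ M → ∃ S' ⊆ S, 2 * S'.card + n * n = n * (2 * M + 1) ∧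
      (S'.image fun q : ℤ × ℤ => q.1 - q.2).card ≤ n ∧
      ∀ s : ℕ, 1 ≤ s → (lns S' s).Nonempty → (lns S' s).card + s ≤ M + 1 := by
  intro n
  induction n with
  | zero =>
    intro _
    refine ⟨∅, Finset.empty_subset _, by simp, by simp, ?_⟩
    intro s _ hne
    obtain ⟨X, hX⟩ := hne
    rw [mem_lns] at hX
    simp at hX
  | succ n ih =>
    intro hn
    obtain ⟨S', hS', hc, hl, hs⟩ := ih (by omega)
    have h1 := h (M - n) (by omega) (by omega)
    have h2 : (S'.image fun q : ℤ × ℤ => q.1 - q.2).card < (lns S (M - n)).card := by omega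
    obtain ⟨X, hX, hXn⟩ := Finset.exists_mem_notMem_of_card_lt_card h2
    rw [mem_lns] at hX
    obtain ⟨F', hF', hFc⟩ := Finset.exists_subset_card_eq hX.2
    have hF1 : ∀ q ∈ F', q ∈ S ∧ q.1 - q.2 = X := by
      intro q hq
      exact Finset.mem_filter.1 (hF' hq)
    have hdis : Disjoint S' F' := by
      rw [Finset.disjoint_left]
      intro q hq hq'
      exact hXn (Finset.mem_image.2 ⟨q, hq, (hF1 q hq').2⟩)
    have hcard : (S' ∪ F').card = S'.card + (M - n) := by
      rw [Finset.card_union_of_disjoint hdis, hFc]
    have him : ((S' ∪ F').image fun q : ℤ × ℤ => q.1 - q.2) ⊆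
        insert X (S'.image fun q : ℤ × ℤ => q.1 - q.2) := by
      intro Y hY
      rw [Finset.mem_image] at hY
      obtain ⟨q, hq, hqY⟩ := hY
      rw [Finset.mem_union] at hq
      rw [Finset.mem_insert]
      rcases hq with hq | hq
      · exact Or.inr (Finset.mem_image.2 ⟨q, hq, hqY⟩)
      · left
        rw [← hqY]
        exact (hF1 q hq).2
    have him2 : ((S' ∪ F').image fun q : ℤ × ℤ => q.1 - q.2).card ≤ n + 1 := by
      refine (Finset.card_le_card him).trans ?_
      refine (Finset.card_insert_le _ _).trans ?_
      omega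
    refine ⟨S' ∪ F', ?_, ?_, him2, ?_⟩
    · intro q hq
      rw [Finset.mem_union] at hq
      rcases hq with hq | hq
      · exact hS' hq
      · exact (hF1 q hq).1
    · rw [hcard]
      obtain ⟨e, rfl⟩ : ∃ e, M = n + e := ⟨M - n, by omega⟩
      rw [Nat.add_sub_cancel_left]
      nlinarith
    · intro s hs1 hne
      by_cases hsm : s ≤ M - n
      · have h3 : (lns (S' ∪ F') s).card ≤ n + 1 :=
          (Finset.card_le_card (Finset.filter_subset _ _)).trans him2
        omega
      · have hsub : lns (S' ∪ F') s ⊆ lns S' s := by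
          intro Y hY
          rw [mem_lns] at hY
          by_cases hYX : Y = X
          · exfalso
            subst hYX
            have h4 : ((S' ∪ F').filter fun q => q.1 - q.2 = Y) ⊆ F' := by
              intro q hq
              rw [Finset.mem_filter, Finset.mem_union] at hq
              rcases hq.1 with hq1 | hq1
              · exact absurd (Finset.mem_image.2 ⟨q, hq1, hq.2⟩) hXn
              · exact hq1
            have h5 := Finset.card_le_card h4
            omega
          · have h4 : ((S' ∪ F').filter fun q => q.1 - q.2 = Y) =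
                (S'.filter fun q => q.1 - q.2 = Y) := by
              ext q
              rw [Finset.mem_filter, Finset.mem_union, Finset.mem_filter]
              constructor
              · rintro ⟨hq1 | hq1, hq2⟩
                · exact ⟨hq1, hq2⟩
                · exact absurd (hq2.symm.trans (hF1 q hq1).2) hYX
              · rintro ⟨hq1, hq2⟩
                exact ⟨Or.inl hq1, hq2⟩
            rw [h4] at hY
            rw [mem_lns]
            refine ⟨?_, hY.2⟩
            have h6 : 0 < (S'.filter fun q => q.1 - q.2 = Y).card := by omega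
            obtain ⟨q, hq⟩ := Finset.card_pos.1 h6
            rw [Finset.mem_filter] at hq
            exact Finset.mem_image.2 ⟨q, hq.1, hq.2⟩
        have h7 := hs s hs1 (hne.mono hsub)
        have h8 := Finset.card_le_card hsub
        omega

theorem t (h1 : S_COLC) : S_COLS := by
  intro M S h
  obtain ⟨S', hS', hc, _, hs⟩ := step M S h M le_rfl
  refine ⟨S', hS', ?_, h1 M S' hs⟩
  have : 2 * S'.card = M * (M + 1) := by nlinarith
  omega

end Pool.Agent.Helper1.Nag.COLS
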